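import Pool.Agent.Helper94.KC.Goals

set_option autoImplicit false

open scoped Classical
open Finset

namespace Pool.Agent.Helper83.KC

open Pool.Agent.Helper94.KC

theorem gh : StmtGH := by
  intro V _ T R x u u' h5 hu hu' hadj _
  obtain ⟨hne, hux, hu'x, t, ht, hxt, hut, hu't⟩ := hadj
  have a1 : (sk T).Adj x u := ⟨hux.symm, t, ht, hxt, hut⟩
  have a2 : (sk T).Adj x u' := ⟨hu'x.symm, t, ht, hxt, hu't⟩
  have hsub : (R.filter (fun y => (sk T).Adj x y)) ∪ {u, u'} ⊆
      (univ : Finset V).filter (fun y => (sk T).Adj x y) := by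
    intro y hy
    rw [mem_filter]
    refine ⟨mem_univ _, ?_⟩
    rcases mem_union.1 hy with h | h
    · exact (mem_filter.1 h).2
    · rw [mem_insert, mem_singleton] at h
      rcases h with rfl | rfl
      · exact a1
      · exact a2
  have hdisj : Disjoint (R.filter (fun y => (sk T).Adj x y)) ({u, u'} : Finset V) := by
    rw [disjoint_left]
    intro y hy h
    have hyR := (mem_filter.1 hy).1
    rw [mem_insert, mem_singleton] at h
    rcases h with rfl | rfl
    · exact hu hyR
    · exact hu' hyR
  have h1 := card_le_card hsub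
  rw [card_union_of_disjoint hdisj, card_pair hne] at h1
  have h2 : (R.filter (fun y => (sk T).Adj x y)).card = dR (sk T) R x := by
    rw [dR]
  have h3 : ((univ : Finset V).filter (fun y => (sk T).Adj x y)).card = dg T x := by
    rw [dg, dR]
  omega

end Pool.Agent.Helper83.KC
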