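import Pool.Agent.Helper53.KC.Goals

/-!
# MP_8c9d5b_co, packet CONT: the container lemma
-/

namespace Pool.Agent.Helper83.KC

open Finset
open Pool.Agent.Helper53.KC

theorem cont : ContStmt := by
  intro α _ ad A D hD hsym hirr
  classical
  induction h : A.card using Nat.strong_induction_on generalizing A with
  | _ m ih =>
    subst h
    by_cases hA : ∀ v ∈ A, ∀ W ⊆ A, (∀ w ∈ W, ad v w) → W.card < D
    · refine ⟨fun _ => A, fun _ => Finset.Subset.refl _, fun _ => hA, fun K => ⟨∅, by simp, by simp,
        by simp, ?_⟩⟩
      intro v hv hv'
      exact absurd hv hv'
    · push Not at hA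
      obtain ⟨v, hv, W₀, hW₀A, hW₀, hDW₀⟩ := hA
      set W : Finset α := A.filter (fun w => ad v w) with hW
      have hDW : D ≤ W.card := hDW₀.trans (card_le_card fun w hw => by
        simp only [hW, mem_filter]; exact ⟨hW₀A hw, hW₀ w hw⟩)
      have hvW : v ∉ W := by
        simp only [hW, mem_filter, not_and]
        intro _
        exact hirr v
      have hIA : insert v W ⊆ A := by
        intro x hx
        rw [mem_insert] at hx
        rcases hx with rfl | hx
        · exact hv
        · exact (mem_filter.1 hx).1
      have hIc : (insert v W).card = W.card + 1 := card_insert_of_notMem hvW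
      have hc0 : (A.erase v).card + 1 = A.card := card_erase_add_one hv
      have hc1 : (A \ insert v W).card + (insert v W).card = A.card :=
        card_sdiff_add_card_eq_card hIA
      obtain ⟨c₀, h01, h02, h03⟩ := ih (A.erase v).card (by omega) (A.erase v) rfl
      obtain ⟨c₁, h11, h12, h13⟩ := ih (A \ insert v W).card (by omega) (A \ insert v W) rfl
      refine ⟨fun U => if v ∈ U then c₁ (U.erase v) else c₀ U, ?_, ?_, ?_⟩
      · intro U
        dsimp only
        split_ifs
        · exact (h11 _).trans sdiff_subset
        · exact (h01 _).trans (erase_subset _ _)
      · intro U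
        dsimp only
        split_ifs
        · exact h12 _
        · exact h02 _
      · intro K
        by_cases hvK : v ∈ K
        · obtain ⟨U₁, hU1, hU2, hU3, hU4⟩ := h13 K
          have hvU : v ∉ U₁ := fun hh => by
            have := hU2 hh
            simp at this
          refine ⟨insert v U₁, ?_, ?_, ?_, ?_⟩
          · intro x hx
            rw [mem_insert] at hx
            rcases hx with rfl | hx
            · exact hvK
            · exact hU1 hx
          · intro x hx
            rw [mem_insert] at hx
            rcases hx with rfl | hx
            · exact hv
            · exact (mem_sdiff.1 (hU2 hx)).1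
          · rw [card_insert_of_notMem hvU, add_mul, one_mul]
            omega
          · intro x hx hxc
            dsimp only at hxc
            rw [if_pos (mem_insert_self _ _), erase_insert hvU] at hxc
            by_cases hxv : x = v
            · left; rw [hxv]; exact mem_insert_self _ _
            by_cases hxW : x ∈ W
            · right; left
              exact ⟨v, mem_insert_self _ _, (mem_filter.1 hxW).2⟩
            have hx1 : x ∈ A \ insert v W := by
              rw [mem_sdiff, mem_insert]
              exact ⟨hx, by tauto⟩
            rcases hU4 x hx1 hxc with hh | ⟨u, hu, hh⟩ | hh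
            · left; exact mem_insert_of_mem hh
            · right; left; exact ⟨u, mem_insert_of_mem hu, hh⟩
            · right; right; exact hh
        · obtain ⟨U, hU1, hU2, hU3, hU4⟩ := h03 K
          have hvU : v ∉ U := fun hh => hvK (hU1 hh)
          refine ⟨U, hU1, hU2.trans (erase_subset _ _), by omega, ?_⟩
          intro x hx hxc
          dsimp only at hxc
          rw [if_neg hvU] at hxc
          by_cases hxv : x = v
          · right; right; rw [hxv]; exact hvK
          · exact hU4 x (mem_erase.2 ⟨hxv, hx⟩) hxc

end Pool.Agent.Helper83.KC
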